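import Mathlib

/-!
# The second symbolic power of the graphic matroidal ideal of K4 is not componentwise linear

The ideal generated by the 16 spanning trees of the complete graph on four vertices is
polymatroidal (even matroidal).  The monomials of its second symbolic power are the
2-edge-connected multigraphs on the edges of K4; in degree four these are the three Hamilton
cycles, and their syzygies start in degree six.
-/

namespace Pool.Agent.Results.MP_d6f7e8_al.K4Counterexample

open MvPolynomial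

universe u

/-- `B` is the set of bases of a discrete polymatroid. -/
def IsDiscretePolymatroid {n : ℕ} (B : Finset (Fin n →₀ ℕ)) : Prop :=
  B.Nonempty ∧ (∀ u ∈ B, ∀ v ∈ B, ∑ i, u i = ∑ i, v i) ∧
    ∀ u ∈ B, ∀ v ∈ B, ∀ i, v i < u i →
      ∃ j, u j < v j ∧ u - Finsupp.single i 1 + Finsupp.single j 1 ∈ B

/-- `I` is generated by the monomials whose exponent vectors are the bases of a discrete
polymatroid (these all have one degree, so they are the minimal monomial generators). -/
def IsPolymatroidal {K : Type u} [Field K] {n : ℕ} (I : Ideal (MvPolynomial (Fin n) K)) : Prop :=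
  ∃ B : Finset (Fin n →₀ ℕ), IsDiscretePolymatroid B ∧
    I = Ideal.span ((fun u => monomial u (1 : K)) '' (B : Set (Fin n →₀ ℕ)))

/-- The `k`-th symbolic power: the intersection over the associated primes `P` of `I` of the
contractions of `I ^ k` extended to the localization at `P`. -/
noncomputable def symbolicPower {R : Type u} [CommRing R] (I : Ideal R) (k : ℕ) : Ideal R :=
  ⨅ P : associatedPrimes R (R ⧸ I),
    ((I ^ k).map (algebraMap R (Localization.AtPrime P.1))).comap
      (algebraMap R (Localization.AtPrime P.1))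

/-- The ideal generated by the homogeneous elements of degree `j` of `J`. -/
noncomputable def component {K : Type u} [Field K] {n : ℕ} (J : Ideal (MvPolynomial (Fin n) K)) (j : ℕ) :
    Ideal (MvPolynomial (Fin n) K) :=
  Ideal.span {f | f ∈ J ∧ f.IsHomogeneous j}

/-- `J` has a linear resolution: there are homogeneous generators `g` of one degree and an exact
complex of finite free modules resolving `J` all of whose matrices have linear forms as entries
(such a resolution is automatically the minimal graded free resolution). -/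
def HasLinearResolution {K : Type u} [Field K] {n : ℕ} (J : Ideal (MvPolynomial (Fin n) K)) :
    Prop :=
  ∃ (d : ℕ) (b : ℕ → ℕ) (g : Fin (b 0) → MvPolynomial (Fin n) K)
    (A : ∀ i, Matrix (Fin (b i)) (Fin (b (i + 1))) (MvPolynomial (Fin n) K)),
    (∀ s, (g s).IsHomogeneous d) ∧ Ideal.span (Set.range g) = J ∧
    (∀ i s t, (A i s t).IsHomogeneous 1) ∧
    Function.Exact (A 0).mulVecLin (Fintype.linearCombination (MvPolynomial (Fin n) K) g) ∧
    ∀ i, Function.Exact (A (i + 1)).mulVecLin (A i).mulVecLin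

/-- `J` is componentwise linear. -/
def IsComponentwiseLinear {K : Type u} [Field K] {n : ℕ} (J : Ideal (MvPolynomial (Fin n) K)) :
    Prop :=
  ∀ j, HasLinearResolution (component J j)

section Proof

/-- Edges of K4: 0 = 12, 1 = 34, 2 = 13, 3 = 24, 4 = 14, 5 = 23.  The spanning trees. -/
def trees : Finset (Finset (Fin 6)) :=
  {{0, 1, 2}, {0, 1, 3}, {0, 1, 4}, {0, 1, 5}, {0, 2, 3}, {0, 2, 4}, {0, 3, 5}, {0, 4, 5},
    {1, 2, 3}, {1, 2, 5}, {1, 3, 4}, {1, 4, 5}, {2, 3, 4}, {2, 3, 5}, {2, 4, 5}, {3, 4, 5}}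

/-- The minimal cuts of K4. -/
def bonds : Finset (Finset (Fin 6)) :=
  {{0, 2, 4}, {0, 3, 5}, {1, 2, 5}, {1, 3, 4}, {2, 3, 4, 5}, {0, 1, 4, 5}, {0, 1, 2, 3}}

/-- Indicator exponent vector. -/
noncomputable def vec (T : Finset (Fin 6)) : Fin 6 →₀ ℕ :=
  Finsupp.equivFunOnFinite.symm fun i => if i ∈ T then 1 else 0

@[simp] lemma vec_apply (T : Finset (Fin 6)) (i : Fin 6) : vec T i = if i ∈ T then 1 else 0 := rfl

/-- The exponent vectors of the spanning trees. -/
noncomputable def bases : Finset (Fin 6 →₀ ℕ) := by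
  classical exact trees.image vec

lemma mem_bases {u : Fin 6 →₀ ℕ} : u ∈ bases ↔ ∃ T ∈ trees, vec T = u := by
  classical
  simp [bases]

lemma trees_exchange : ∀ T ∈ trees, ∀ U ∈ trees, ∀ i ∈ T, i ∉ U →
    ∃ j ∈ U, j ∉ T ∧ insert j (T.erase i) ∈ trees := by
  decide +kernel

lemma trees_card : ∀ T ∈ trees, T.card = 3 := by decide +kernel

lemma bases_poly : IsDiscretePolymatroid bases := by
  refine ⟨⟨vec {0, 1, 2}, mem_bases.2 ⟨_, by decide, rfl⟩⟩, ?_, ?_⟩
  · intro u hu v hv
    obtain ⟨T, hT, rfl⟩ := mem_bases.1 hu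
    obtain ⟨U, hU, rfl⟩ := mem_bases.1 hv
    simp [trees_card T hT, trees_card U hU]
  · intro u hu v hv i hi
    obtain ⟨T, hT, rfl⟩ := mem_bases.1 hu
    obtain ⟨U, hU, rfl⟩ := mem_bases.1 hv
    have hiT : i ∈ T := by
      by_contra h
      simp [h] at hi
    have hiU : i ∉ U := by
      intro h
      simp [h, hiT] at hi
    obtain ⟨j, hjU, hjT, hmem⟩ := trees_exchange T hT U hU i hiT hiU
    refine ⟨j, by simp [hjU, hjT], mem_bases.2 ⟨_, hmem, ?_⟩⟩
    ext t
    have hij : i ≠ j := fun h => hjT (h ▸ hiT)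
    by_cases h1 : t = j
    · subst h1
      simp [hjT, hij]
    · by_cases h2 : t = i
      · subst h2
        simp [hiT, hij]
      · simp [h1, h2]

variable (K : Type u) [Field K]

/-- The ideal of the spanning trees of K4. -/
noncomputable def treeIdeal : Ideal (MvPolynomial (Fin 6) K) :=
  Ideal.span ((fun u => monomial u (1 : K)) '' (bases : Set (Fin 6 →₀ ℕ)))

variable {K}

lemma vec_le_iff (T : Finset (Fin 6)) (m : Fin 6 →₀ ℕ) : vec T ≤ m ↔ T ⊆ m.support := by
  constructor
  · intro h i hi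
    have := h i
    simp only [vec_apply, hi, if_true] at this
    simp only [Finsupp.mem_support_iff]
    omega
  · intro h i
    by_cases hi : i ∈ T
    · have := h hi
      simp only [Finsupp.mem_support_iff] at this
      simp only [vec_apply, hi, if_true]
      omega
    · simp [hi]

lemma mem_treeIdeal {f : MvPolynomial (Fin 6) K} :
    f ∈ treeIdeal K ↔ ∀ m ∈ f.support, ∃ T ∈ trees, T ⊆ m.support := by
  rw [treeIdeal, mem_ideal_span_monomial_image]
  refine forall₂_congr fun m _ => ?_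
  constructor
  · rintro ⟨u, hu, hle⟩
    obtain ⟨T, hT, rfl⟩ := mem_bases.1 hu
    exact ⟨T, hT, (vec_le_iff T m).1 hle⟩
  · rintro ⟨T, hT, hle⟩
    exact ⟨vec T, mem_bases.2 ⟨T, hT, rfl⟩, (vec_le_iff T m).2 hle⟩

lemma tree_iff_bond : ∀ s : Finset (Fin 6),
    (∃ T ∈ trees, T ⊆ s) ↔ ∀ C ∈ bonds, ∃ i ∈ C, i ∈ s := by
  decide +kernel

lemma compl_bond : ∀ C ∈ bonds, ∀ i ∈ C, ∃ T ∈ trees, T ⊆ insert i Cᶜ := by
  decide +kernel

/-- The weight of a monomial on a set of variables. -/
def wt (C : Finset (Fin 6)) (m : Fin 6 →₀ ℕ) : ℕ := ∑ i ∈ C, m i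

/-- Multiply every variable of `C` by a new variable. -/
noncomputable def theta (C : Finset (Fin 6)) :
    MvPolynomial (Fin 6) K →ₐ[K] Polynomial (MvPolynomial (Fin 6) K) :=
  aeval fun i => Polynomial.C (X i) * Polynomial.X ^ (if i ∈ C then 1 else 0)

lemma theta_monomial (C : Finset (Fin 6)) (m : Fin 6 →₀ ℕ) (a : K) :
    theta C (monomial m a) = Polynomial.C (monomial m a) * Polynomial.X ^ wt C m := by
  rw [theta, aeval_monomial, monomial_eq, Finsupp.prod_fintype _ _ (by simp),
    Finsupp.prod_fintype _ _ (by simp)]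
  simp only [mul_pow, Finset.prod_mul_distrib, ← pow_mul, Finset.prod_pow_eq_pow_sum, map_mul,
    map_prod, map_pow, mul_assoc]
  have h1 : (∑ i, (if i ∈ C then 1 else 0) * m i) = wt C m := by
    simp [wt, Finset.sum_ite_mem]
  rw [h1]
  rfl

lemma coeff_theta (C : Finset (Fin 6)) (f : MvPolynomial (Fin 6) K) (j : ℕ) (m : Fin 6 →₀ ℕ) :
    coeff m ((theta C f).coeff j) = if wt C m = j then coeff m f else 0 := by
  classical
  induction f using MvPolynomial.induction_on' with
  | monomial u a =>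
    rw [theta_monomial, Polynomial.coeff_C_mul, Polynomial.coeff_X_pow]
    by_cases hu : u = m
    · subst hu
      by_cases h : wt C u = j
      · simp [h]
      · simp [h, Ne.symm h]
    · by_cases h : j = wt C u <;> simp [h, coeff_monomial, hu]
  | add p q hp hq =>
    rw [map_add, Polynomial.coeff_add, coeff_add, hp, hq, coeff_add]
    split_ifs <;> simp

lemma pow_dvd_theta_iff (C : Finset (Fin 6)) (f : MvPolynomial (Fin 6) K) (k : ℕ) :
    Polynomial.X ^ k ∣ theta C f ↔ ∀ m ∈ f.support, k ≤ wt C m := by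
  rw [Polynomial.X_pow_dvd_iff]
  constructor
  · intro h m hm
    by_contra hlt
    have h1 := coeff_theta C f (wt C m) m
    rw [h _ (not_le.1 hlt)] at h1
    simp only [coeff_zero, if_true] at h1
    exact (mem_support_iff.1 hm) h1.symm
  · intro h d hd
    ext m
    rw [coeff_theta, coeff_zero]
    split_ifs with hw
    · by_contra hne
      have := h m (mem_support_iff.2 hne)
      omega
    · rfl

/-- The prime generated by the variables in `C`. -/
noncomputable def cutPrime (C : Finset (Fin 6)) : Ideal (MvPolynomial (Fin 6) K) :=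
  (Ideal.span {(Polynomial.X : Polynomial (MvPolynomial (Fin 6) K))}).comap (theta C)

lemma cutPrime_isPrime (C : Finset (Fin 6)) : (cutPrime (K := K) C).IsPrime := by
  have : (Ideal.span {(Polynomial.X : Polynomial (MvPolynomial (Fin 6) K))}).IsPrime :=
    (Ideal.span_singleton_prime Polynomial.X_ne_zero).2 Polynomial.prime_X
  exact Ideal.comap_isPrime _ _

lemma mem_cutPrime_dvd {C : Finset (Fin 6)} {f : MvPolynomial (Fin 6) K} :
    f ∈ cutPrime C ↔ Polynomial.X ∣ theta C f := by
  rw [cutPrime, Ideal.mem_comap, Ideal.mem_span_singleton]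

lemma mem_cutPrime {C : Finset (Fin 6)} {f : MvPolynomial (Fin 6) K} :
    f ∈ cutPrime C ↔ ∀ m ∈ f.support, ∃ i ∈ C, i ∈ m.support := by
  rw [mem_cutPrime_dvd, ← pow_one Polynomial.X, pow_dvd_theta_iff]
  refine forall₂_congr fun m _ => ?_
  rw [Nat.one_le_iff_ne_zero, wt, Ne, Finset.sum_eq_zero_iff]
  simp

lemma mem_treeIdeal_iff_cut {f : MvPolynomial (Fin 6) K} :
    f ∈ treeIdeal K ↔ ∀ C ∈ bonds, f ∈ cutPrime C := by
  simp only [mem_treeIdeal, mem_cutPrime, tree_iff_bond]
  exact ⟨fun h C hC m hm => h m hm C hC, fun h m hm C hC => h C hC m hm⟩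

lemma monomial_notMem_cutPrime {C : Finset (Fin 6)} {m : Fin 6 →₀ ℕ}
    (h : ∀ i ∈ C, m i = 0) : monomial m (1 : K) ∉ cutPrime C := by
  classical
  rw [mem_cutPrime]
  intro h'
  obtain ⟨i, hi, hm⟩ := h' m (by simp [support_monomial])
  exact (Finsupp.mem_support_iff.1 hm) (h i hi)

lemma cutPrime_assoc {C : Finset (Fin 6)} (hC : C ∈ bonds) :
    cutPrime C ∈ associatedPrimes (MvPolynomial (Fin 6) K)
      (MvPolynomial (Fin 6) K ⧸ treeIdeal K) := by
  classical
  rw [AssociatedPrimes.mem_iff, isAssociatedPrime_iff]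
  refine ⟨cutPrime_isPrime C, Ideal.Quotient.mk _ (monomial (vec Cᶜ) 1), ?_⟩
  ext f
  rw [Submodule.mem_colon_singleton, Submodule.mem_bot]
  change _ ↔ Ideal.Quotient.mk (treeIdeal K) (f * monomial (vec Cᶜ) 1) = 0
  rw [Ideal.Quotient.eq_zero_iff_mem]
  constructor
  · intro hf
    rw [mem_treeIdeal]
    intro m hm
    rw [mem_support_iff, coeff_mul_monomial'] at hm
    split_ifs at hm with hle
    · have h1 : m - vec Cᶜ ∈ f.support := by
        rw [mem_support_iff]
        intro h0
        simp [h0] at hm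
      obtain ⟨i, hi, him⟩ := mem_cutPrime.1 hf _ h1
      obtain ⟨T, hT, hsub⟩ := compl_bond C hC i hi
      refine ⟨T, hT, hsub.trans ?_⟩
      rw [Finset.insert_subset_iff]
      refine ⟨?_, (vec_le_iff _ _).1 hle⟩
      simp only [Finsupp.mem_support_iff, Finsupp.coe_tsub, Pi.sub_apply] at him ⊢
      omega
    · exact absurd rfl hm
  · intro hf
    rcases (cutPrime_isPrime C).mem_or_mem (mem_treeIdeal_iff_cut.1 hf C hC) with h | h
    · exact h
    · exact absurd h (monomial_notMem_cutPrime (by intro i hi; simp [hi]))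

lemma mem_symbolicPower {R : Type u} [CommRing R] {I : Ideal R} {k : ℕ} {f : R} :
    f ∈ symbolicPower I k ↔
      ∀ P ∈ associatedPrimes R (R ⧸ I), ∃ s, s ∉ P ∧ s * f ∈ I ^ k := by
  rw [symbolicPower, Ideal.mem_iInf]
  constructor
  · intro h P hP
    have := h ⟨P, hP⟩
    rw [Ideal.mem_comap,
      IsLocalization.algebraMap_mem_map_algebraMap_iff (Ideal.primeCompl P (hp := hP.1))] at this
    exact this
  · rintro h ⟨P, hP⟩
    rw [Ideal.mem_comap,
      IsLocalization.algebraMap_mem_map_algebraMap_iff (Ideal.primeCompl P (hp := hP.1))]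
    exact h P hP

/-- Upper bound: monomials of the second symbolic power meet every cut twice. -/
lemma wt_of_mem_symbolic {f : MvPolynomial (Fin 6) K} (hf : f ∈ symbolicPower (treeIdeal K) 2)
    {C : Finset (Fin 6)} (hC : C ∈ bonds) : ∀ m ∈ f.support, 2 ≤ wt C m := by
  obtain ⟨s, hs, hsf⟩ := mem_symbolicPower.1 hf _ (cutPrime_assoc hC)
  rw [← pow_dvd_theta_iff]
  have hle : treeIdeal K ≤ cutPrime C := fun g hg => mem_treeIdeal_iff_cut.1 hg C hC
  have h1 : s * f ∈ cutPrime C ^ 2 := Ideal.pow_right_mono hle 2 hsf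
  have h2 : Polynomial.X ^ 2 ∣ theta C (s * f) := by
    have := Ideal.le_comap_pow (theta (K := K) C) 2 h1
    rwa [Ideal.mem_comap, Ideal.span_singleton_pow, Ideal.mem_span_singleton] at this
  rw [map_mul] at h2
  exact Polynomial.prime_X.pow_dvd_of_dvd_mul_left 2 (fun h => hs (mem_cutPrime_dvd.2 h)) h2

/-- Lower bound: a criterion for a squarefree monomial to be in the second symbolic power. -/
lemma monomial_mem_symbolic (H : Finset (Fin 6)) (L : Finset (Fin 6 × Fin 6))
    (hL : ∀ p ∈ L, ∃ T ∈ trees, ∃ U ∈ trees, ∀ t : Fin 6,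
      (if p.1 = t then 1 else 0) + (if p.2 = t then 1 else 0) + (if t ∈ H then 1 else 0) =
        (if t ∈ T then 1 else 0) + (if t ∈ U then 1 else 0 : ℕ))
    (hV : ∀ V : Finset (Fin 6), (∀ p ∈ L, p.1 ∈ V ∨ p.2 ∈ V) → ∀ C ∈ bonds, ∃ i ∈ V, i ∉ C) :
    monomial (vec H) (1 : K) ∈ symbolicPower (treeIdeal K) 2 := by
  classical
  rw [mem_symbolicPower]
  intro P hP
  by_contra hcon
  push Not at hcon
  rw [AssociatedPrimes.mem_iff, isAssociatedPrime_iff] at hP
  obtain ⟨hPp, x, hx⟩ := hP
  obtain ⟨f, rfl⟩ := Ideal.Quotient.mk_surjective x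
  have hmem : ∀ s, s ∈ P ↔ s * f ∈ treeIdeal K := by
    intro s
    rw [hx, Submodule.mem_colon_singleton, Submodule.mem_bot]
    change Ideal.Quotient.mk (treeIdeal K) (s * f) = 0 ↔ _
    rw [Ideal.Quotient.eq_zero_iff_mem]
  have hV' := hV (Finset.univ.filter fun i => (X i : MvPolynomial (Fin 6) K) ∈ P) (by
    intro p hp
    obtain ⟨T, hT, U, hU, hTU⟩ := hL p hp
    have h1 : (X p.1 * X p.2 : MvPolynomial (Fin 6) K) ∈ P := by
      by_contra hn
      apply hcon _ hn
      have h2 : (X p.1 * X p.2 : MvPolynomial (Fin 6) K) * monomial (vec H) 1 =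
          monomial (vec T) 1 * monomial (vec U) 1 := by
        simp only [X, monomial_mul, mul_one]
        congr 2
        ext t
        simpa [Finsupp.single_apply] using hTU t
      rw [h2, pow_two]
      exact Ideal.mul_mem_mul
        (Ideal.subset_span ⟨vec T, mem_bases.2 ⟨T, hT, rfl⟩, rfl⟩)
        (Ideal.subset_span ⟨vec U, mem_bases.2 ⟨U, hU, rfl⟩, rfl⟩)
    simpa using hPp.mem_or_mem h1)
  have hf : f ∈ treeIdeal K := by
    rw [mem_treeIdeal_iff_cut]
    intro C hC
    obtain ⟨i, hi, hiC⟩ := hV' C hC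
    have hi' : (X i : MvPolynomial (Fin 6) K) ∈ P := by simpa using hi
    rcases (cutPrime_isPrime C).mem_or_mem (mem_treeIdeal_iff_cut.1 ((hmem _).1 hi') C hC) with
      h | h
    · refine absurd h (monomial_notMem_cutPrime ?_)
      intro j hj
      have : i ≠ j := fun h => hiC (h ▸ hj)
      simp [this]
    · exact h
  exact hPp.ne_top ((Ideal.eq_top_iff_one _).2 ((hmem 1).2 (by simpa using hf)))

lemma ham1_mem : monomial (vec {2, 3, 4, 5}) (1 : K) ∈ symbolicPower (treeIdeal K) 2 :=
  monomial_mem_symbolic _ {(0, 0), (1, 1), (2, 3), (2, 4), (2, 5), (3, 4), (3, 5), (4, 5)}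
    (by decide +kernel) (by decide +kernel)

lemma ham2_mem : monomial (vec {0, 1, 4, 5}) (1 : K) ∈ symbolicPower (treeIdeal K) 2 :=
  monomial_mem_symbolic _ {(2, 2), (3, 3), (0, 1), (0, 4), (0, 5), (1, 4), (1, 5), (4, 5)}
    (by decide +kernel) (by decide +kernel)

/-- The exponent vector dominates one of the three Hamilton cycles. -/
def Ham (m : Fin 6 →₀ ℕ) : Prop :=
  (1 ≤ m 2 ∧ 1 ≤ m 3 ∧ 1 ≤ m 4 ∧ 1 ≤ m 5) ∨ (1 ≤ m 0 ∧ 1 ≤ m 1 ∧ 1 ≤ m 4 ∧ 1 ≤ m 5) ∨
    (1 ≤ m 0 ∧ 1 ≤ m 1 ∧ 1 ≤ m 2 ∧ 1 ≤ m 3)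

lemma degree_of_homogeneous {f : MvPolynomial (Fin 6) K} {d : ℕ} (hf : f.IsHomogeneous d)
    {m : Fin 6 →₀ ℕ} (hm : coeff m f ≠ 0) : m 0 + m 1 + m 2 + m 3 + m 4 + m 5 = d := by
  have := hf hm
  rw [Finsupp.weight_apply, Finsupp.sum_fintype _ _ (by simp)] at this
  simpa [Fin.sum_univ_six] using this

lemma ham_of_mem_component {g : MvPolynomial (Fin 6) K}
    (hg : g ∈ component (symbolicPower (treeIdeal K) 2) 4) : ∀ m ∈ g.support, Ham m := by
  have h : component (symbolicPower (treeIdeal K) 2) 4 ≤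
      Ideal.span ((fun u => monomial u (1 : K)) '' {m | Ham m}) := by
    rw [component, Ideal.span_le]
    rintro f ⟨hf, hhom⟩
    rw [SetLike.mem_coe, mem_ideal_span_monomial_image]
    intro m hm
    refine ⟨m, ?_, le_rfl⟩
    have hd := degree_of_homogeneous hhom (mem_support_iff.1 hm)
    have h1 := wt_of_mem_symbolic hf (C := {0, 2, 4}) (by decide) m hm
    have h2 := wt_of_mem_symbolic hf (C := {0, 3, 5}) (by decide) m hm
    have h3 := wt_of_mem_symbolic hf (C := {1, 2, 5}) (by decide) m hm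
    have h4 := wt_of_mem_symbolic hf (C := {1, 3, 4}) (by decide) m hm
    have h5 := wt_of_mem_symbolic hf (C := {2, 3, 4, 5}) (by decide) m hm
    have h6 := wt_of_mem_symbolic hf (C := {0, 1, 4, 5}) (by decide) m hm
    have h7 := wt_of_mem_symbolic hf (C := {0, 1, 2, 3}) (by decide) m hm
    simp [wt] at h1 h2 h3 h4 h5 h6 h7
    simp only [Set.mem_ofPred_eq, Ham]
    omega
  intro m hm
  obtain ⟨u, hu, hle⟩ := mem_ideal_span_monomial_image.1 (h hg) m hm
  have h0 := hle 0
  have h1 := hle 1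
  have h2 := hle 2
  have h3 := hle 3
  have h4 := hle 4
  have h5 := hle 5
  simp only [Set.mem_ofPred_eq, Ham] at hu ⊢
  omega

lemma finsupp_ext6 {a b : Fin 6 →₀ ℕ} (h0 : a 0 = b 0) (h1 : a 1 = b 1) (h2 : a 2 = b 2)
    (h3 : a 3 = b 3) (h4 : a 4 = b 4) (h5 : a 5 = b 5) : a = b := by
  ext t
  fin_cases t <;> assumption

lemma coeff_ham_mul (p g : MvPolynomial (Fin 6) K) (hg : ∀ m ∈ g.support, Ham m) :
    coeff (vec {2, 3, 4, 5}) (p * g) = coeff 0 p * coeff (vec {2, 3, 4, 5}) g := by
  classical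
  rw [coeff_mul, Finset.sum_eq_single (0, vec {2, 3, 4, 5})]
  · rintro ⟨a, b⟩ hab hne
    by_contra h0
    have hb := hg b (mem_support_iff.2 (right_ne_zero_of_mul h0))
    rw [Finset.HasAntidiagonal.mem_antidiagonal] at hab
    have e0 := DFunLike.congr_fun hab 0
    have e1 := DFunLike.congr_fun hab 1
    have e2 := DFunLike.congr_fun hab 2
    have e3 := DFunLike.congr_fun hab 3
    have e4 := DFunLike.congr_fun hab 4
    have e5 := DFunLike.congr_fun hab 5
    simp at e0 e1 e2 e3 e4 e5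
    simp only [Ham] at hb
    apply hne
    refine Prod.ext (finsupp_ext6 ?_ ?_ ?_ ?_ ?_ ?_) (finsupp_ext6 ?_ ?_ ?_ ?_ ?_ ?_) <;>
      simp <;> omega
  · intro h
    simp at h

lemma coeff_lin_mul (l g : MvPolynomial (Fin 6) K) (hl : l.IsHomogeneous 1)
    (hg : ∀ m ∈ g.support, Ham m) (a : Fin 6 →₀ ℕ)
    (ha : a 0 + a 1 + a 2 + a 3 + a 4 + a 5 = 1) :
    coeff (a + vec {2, 3, 4, 5}) (l * g) = coeff a l * coeff (vec {2, 3, 4, 5}) g := by
  classical
  rw [coeff_mul, Finset.sum_eq_single (a, vec {2, 3, 4, 5})]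
  · rintro ⟨c, b⟩ hab hne
    by_contra h0
    have hb := hg b (mem_support_iff.2 (right_ne_zero_of_mul h0))
    have hc := degree_of_homogeneous (m := c) hl (left_ne_zero_of_mul h0)
    rw [Finset.HasAntidiagonal.mem_antidiagonal] at hab
    have e0 := DFunLike.congr_fun hab 0
    have e1 := DFunLike.congr_fun hab 1
    have e2 := DFunLike.congr_fun hab 2
    have e3 := DFunLike.congr_fun hab 3
    have e4 := DFunLike.congr_fun hab 4
    have e5 := DFunLike.congr_fun hab 5
    simp at e0 e1 e2 e3 e4 e5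
    simp only [Ham] at hb
    apply hne
    refine Prod.ext (finsupp_ext6 ?_ ?_ ?_ ?_ ?_ ?_) (finsupp_ext6 ?_ ?_ ?_ ?_ ?_ ?_) <;>
      simp <;> omega
  · intro h
    simp at h

lemma not_linear : ¬ HasLinearResolution (component (symbolicPower (treeIdeal K) 2) 4) := by
  classical
  rintro ⟨d, b, g, A, -, hspan, hlin, hex, -⟩
  have hg : ∀ s, ∀ m ∈ (g s).support, Ham m := fun s =>
    ham_of_mem_component (hspan ▸ Ideal.subset_span ⟨s, rfl⟩)
  set c : Fin (b 0) → MvPolynomial (Fin 6) K :=
    fun s => C (coeff (vec {2, 3, 4, 5}) (g s)) with hc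
  have hcol : ∀ t, ∑ s, A 0 s t * c s = 0 := by
    intro t
    have hrel : ∑ s, A 0 s t * g s = 0 := by
      have := hex.apply_apply_eq_zero (Pi.single t 1)
      simpa [Fintype.linearCombination_apply] using this
    ext a
    rw [coeff_sum, coeff_zero]
    by_cases ha : a 0 + a 1 + a 2 + a 3 + a 4 + a 5 = 1
    · have := congrArg (coeff (a + vec {2, 3, 4, 5})) hrel
      rw [coeff_sum, coeff_zero] at this
      rw [← this]
      refine Finset.sum_congr rfl fun s _ => ?_
      rw [coeff_lin_mul _ _ (hlin 0 s t) (hg s) a ha, hc, mul_comm, coeff_C_mul, mul_comm]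
    · refine Finset.sum_eq_zero fun s _ => ?_
      have h0 : coeff a (A 0 s t) = 0 := by
        by_contra h
        exact ha (degree_of_homogeneous (hlin 0 s t) h)
      rw [hc, mul_comm, coeff_C_mul, h0, mul_zero]
  have hker : ∀ v : Fin (b 0) → MvPolynomial (Fin 6) K, ∑ s, v s * g s = 0 →
      ∑ s, v s * c s = 0 := by
    intro v hv
    obtain ⟨w, hw⟩ := (hex v).1 (by simpa [Fintype.linearCombination_apply] using hv)
    rw [← hw]
    simp only [Matrix.mulVecLin_apply, Matrix.mulVec, dotProduct, Finset.sum_mul]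
    rw [Finset.sum_comm]
    refine Finset.sum_eq_zero fun t _ => ?_
    have := congrArg (· * w t) (hcol t)
    simp only [Finset.sum_mul, zero_mul] at this
    rw [← this]
    exact Finset.sum_congr rfl fun s _ => by ring
  have hh : ∀ H : Finset (Fin 6), H.card = 4 →
      monomial (vec H) (1 : K) ∈ symbolicPower (treeIdeal K) 2 →
      ∃ p : Fin (b 0) → MvPolynomial (Fin 6) K, ∑ s, p s * g s = monomial (vec H) 1 := by
    intro H hH hm
    have : monomial (vec H) (1 : K) ∈ Ideal.span (Set.range g) := by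
      rw [hspan]
      refine Ideal.subset_span ⟨hm, isHomogeneous_monomial _ ?_⟩
      rw [Finsupp.degree_eq_sum]
      simp [hH]
    exact Ideal.mem_span_range_iff_exists_fun.1 this
  obtain ⟨p, hp⟩ := hh _ (by decide) ham1_mem
  obtain ⟨q, hq⟩ := hh _ (by decide) ham2_mem
  have hrel := hker (fun s => monomial (vec {0, 1}) 1 * p s - monomial (vec {2, 3}) 1 * q s) (by
    simp only [sub_mul, mul_assoc, Finset.sum_sub_distrib, ← Finset.mul_sum, hp, hq, monomial_mul,
      mul_one]
    rw [sub_eq_zero]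
    congr 2
    refine finsupp_ext6 ?_ ?_ ?_ ?_ ?_ ?_ <;> simp)
  simp only [sub_mul, mul_assoc, Finset.sum_sub_distrib, ← Finset.mul_sum] at hrel
  have h1 : coeff 0 (∑ s, p s * c s) = 1 := by
    have := congrArg (coeff (vec {2, 3, 4, 5})) hp
    rw [coeff_sum, coeff_monomial, if_pos rfl] at this
    rw [coeff_sum, ← this]
    refine Finset.sum_congr rfl fun s _ => ?_
    rw [coeff_ham_mul _ _ (hg s), hc, mul_comm, coeff_C_mul, mul_comm]
  have h2 := congrArg (coeff (vec {0, 1})) hrel
  rw [coeff_sub, coeff_monomial_mul', coeff_monomial_mul', if_pos le_rfl, if_neg, tsub_self, h1]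
    at h2
  · simp at h2
  · intro h
    have := h 2
    simp at this

end Proof

/-- Over every field there are a polymatroidal ideal `I` and `k ≥ 1` such that the `k`-th symbolic
power of `I` is not componentwise linear. -/
theorem result (K : Type u) [Field K] :
    ∃ (n : ℕ) (I : Ideal (MvPolynomial (Fin n) K)) (k : ℕ),
      IsPolymatroidal I ∧ 1 ≤ k ∧ ¬ IsComponentwiseLinear (symbolicPower I k) :=
  ⟨6, treeIdeal K, 2, ⟨bases, bases_poly, rfl⟩, by norm_num, fun h => not_linear (h 4)⟩

end Pool.Agent.Results.MP_d6f7e8_al.K4Counterexample
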