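import Pool.Agent.MP_d6f7e8_al.Lam

/-!
# Symbolic powers of matching-matroidal ideals of laminar families

Every symbolic power of such an ideal is componentwise linear.
-/

namespace Pool.Agent.Results.MP_d6f7e8_al.LaminarMatching

open MvPolynomial Pool.Agent.Results.MP_d6f7e8_al.K4Counterexample

universe u

/-- Let `A 1, …, A d` be sets of variables any two of which are nested or disjoint.  All symbolic
powers of the ideal generated by the transversals of the family are componentwise linear. -/
theorem result (K : Type u) [Field K] (n d : ℕ) (A : Fin d → Finset (Fin n))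
    (hA : ∀ s t, A s ⊆ A t ∨ A t ⊆ A s ∨ Disjoint (A s) (A t)) (k : ℕ) :
    IsComponentwiseLinear (symbolicPower
      (Ideal.span {p : MvPolynomial (Fin n) K | ∃ f : Fin d → Fin n,
        Function.Injective f ∧ (∀ s, f s ∈ A s) ∧ p = ∏ s, X (f s)}) k) :=
  Pool.Agent.MP_d6f7e8_al.cwl_lam hA k

end Pool.Agent.Results.MP_d6f7e8_al.LaminarMatching
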