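import Pool.Agent.MP_d6f7e8_al.Box

/-!
# Symbolic powers of polymatroidal ideals with the strong exchange property

Every symbolic power of such an ideal is componentwise linear.
-/

namespace Pool.Agent.Results.MP_d6f7e8_al.StrongExchange

open MvPolynomial Pool.Agent.Results.MP_d6f7e8_al.K4Counterexample

universe u

/-- If the discrete polymatroid `B` has the strong exchange property, then all symbolic powers of
its polymatroidal ideal are componentwise linear. -/
theorem result (K : Type u) [Field K] (n : ℕ) (B : Finset (Fin n →₀ ℕ))
    (hB : IsDiscretePolymatroid B)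
    (hs : ∀ u ∈ B, ∀ v ∈ B, ∀ i j, v i < u i → u j < v j →
      u - Finsupp.single i 1 + Finsupp.single j 1 ∈ B) (k : ℕ) :
    IsComponentwiseLinear (symbolicPower
      (Ideal.span ((fun u => monomial u (1 : K)) '' (B : Set (Fin n →₀ ℕ)))) k) :=
  Pool.Agent.MP_d6f7e8_al.cwl_strong hB hs k

end Pool.Agent.Results.MP_d6f7e8_al.StrongExchange
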